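import Pool.Agent.Helper8.KT.Sheet

/-! Row AP of the sheet KT: amalgamation of Katětov functions. -/

set_option autoImplicit false

namespace Pool.Agent.Helper8.KT

theorem stAP : ST_AP := by
  intro d hd n y η r hy hη hr
  have hne : (Finset.range (n + 1)).Nonempty := ⟨0, Finset.mem_range.2 (Nat.succ_pos n)⟩
  have hr0 : 0 ≤ r := (abs_nonneg _).trans (hr 0 (Nat.zero_le n))
  set g : ℕ → ℝ := fun j => (Finset.range (n + 1)).inf' hne (fun i => η i + d i j) with hg
  have g1 : ∀ j, ∀ i ≤ n, g j ≤ η i + d i j := fun j i hi =>
    Finset.inf'_le (fun i => η i + d i j) (Finset.mem_range.2 (Nat.lt_succ_of_le hi))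
  have g2 : ∀ j, ∃ i ≤ n, g j = η i + d i j := fun j => by
    obtain ⟨i, hi, h⟩ := Finset.exists_mem_eq_inf' hne (fun i => η i + d i j)
    exact ⟨i, Nat.lt_succ_iff.1 (Finset.mem_range.1 hi), h⟩
  have hyl : ∀ i j, y i ≤ y j + d i j := fun i j => by
    have := (abs_le.1 (hy i j).1).2
    linarith
  have hηl : ∀ i j, η i ≤ η j + d i j := fun i j => by
    have := (abs_le.1 (hη i j).1).2
    linarith
  have hyη : ∀ j ≤ n, y j ≤ η j + r ∧ η j ≤ y j + r := fun j hj => by
    have := abs_le.1 (hr j hj)
    constructor <;> linarith [this.1, this.2]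
  have hwl : ∀ i j, min (r + y i) (g i) ≤ min (r + y j) (g j) + d i j := by
    intro i j
    rcases min_choice (r + y j) (g j) with h | h <;> rw [h]
    · refine (min_le_left _ _).trans ?_
      linarith [hyl i j]
    · obtain ⟨k, hk, hgk⟩ := g2 j
      refine (min_le_right _ _).trans ((g1 i k hk).trans ?_)
      rw [hgk]
      have h1 := hd.tri k j i
      have h2 := hd.symm j i
      linarith
  refine ⟨fun j => min (r + y j) (g j), ?_, ?_, ?_⟩
  · intro i j
    constructor
    · rw [abs_le]
      have h1 := hwl i j
      have h2 := hwl j i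
      have h3 := hd.symm j i
      constructor
      · show -(d i j) ≤ min (r + y i) (g i) - min (r + y j) (g j)
        linarith
      · show min (r + y i) (g i) - min (r + y j) (g j) ≤ d i j
        linarith
    · show d i j ≤ min (r + y i) (g i) + min (r + y j) (g j)
      rcases min_choice (r + y i) (g i) with h | h <;> rw [h] <;>
        rcases min_choice (r + y j) (g j) with h' | h' <;> rw [h']
      · linarith [(hy i j).2]
      · obtain ⟨k, hk, hgk⟩ := g2 j
        rw [hgk]
        linarith [(hy i k).2, hd.tri i k j, (hyη k hk).1]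
      · obtain ⟨k, hk, hgk⟩ := g2 i
        rw [hgk]
        linarith [(hy j k).2, hd.tri j k i, (hyη k hk).1, hd.symm i j]
      · obtain ⟨k, hk, hgk⟩ := g2 i
        obtain ⟨l, hl, hgl⟩ := g2 j
        rw [hgk, hgl]
        linarith [(hη k l).2, hd.tri i k j, hd.tri k l j, hd.symm i k]
  · intro j hj
    have h1 : g j = η j := by
      refine le_antisymm ?_ ?_
      · have := g1 j j hj
        rw [hd.self j] at this
        linarith
      · obtain ⟨k, hk, hgk⟩ := g2 j
        rw [hgk]
        have := hηl j k
        rw [hd.symm j k] at this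
        linarith
    show min (r + y j) (g j) = η j
    rw [h1]
    exact min_eq_right (by linarith [(hyη j hj).2])
  · intro j
    rw [abs_le]
    constructor
    · show -r ≤ y j - min (r + y j) (g j)
      have := min_le_left (r + y j) (g j)
      linarith
    · show y j - min (r + y j) (g j) ≤ r
      have h1 : y j - r ≤ min (r + y j) (g j) := by
        refine le_min (by linarith) ?_
        obtain ⟨k, hk, hgk⟩ := g2 j
        rw [hgk]
        have h2 := hyl j k
        rw [hd.symm j k] at h2
        linarith [(hyη k hk).1]
      linarith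

end Pool.Agent.Helper8.KT
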