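import Pool.Agent.Helper8.KT.Sheet3

/-! Row BM of the sheet KT: norms which are limits of `C^k` norms. -/

set_option autoImplicit false

open scoped ContDiff NNReal
open Set Filter Topology

namespace Pool.Agent.Helper8.KT

open Pool.Agent.Helper8.SE

namespace BM

/-- smooth step -/
noncomputable def sg (a : ℝ) (s : ℝ) : ℝ := Real.smoothTransition (s / a - 1)

lemma sg_contDiff (a : ℝ) : ContDiff ℝ ∞ (sg a) :=
  Real.smoothTransition.contDiff.comp ((contDiff_id.div_const a).sub contDiff_const)

lemma sg_nonneg (a s : ℝ) : 0 ≤ sg a s := Real.smoothTransition.nonneg _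

lemma sg_le_one (a s : ℝ) : sg a s ≤ 1 := Real.smoothTransition.le_one _

lemma sg_zero {a s : ℝ} (ha : 0 < a) (h : s ≤ a) : sg a s = 0 := by
  refine Real.smoothTransition.zero_of_nonpos ?_
  have : s / a ≤ 1 := (div_le_one ha).2 h
  linarith

lemma sg_one {a s : ℝ} (ha : 0 < a) (h : 2 * a ≤ s) : sg a s = 1 := by
  refine Real.smoothTransition.one_of_one_le ?_
  have : 2 ≤ s / a := (le_div_iff₀ ha).2 h
  linarith

/-- smooth, `1`-Lipschitz, zero near `0`, close to the identity -/
noncomputable def ph (a : ℝ) (t : ℝ) : ℝ := ∫ s in (0:ℝ)..t, sg a s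

lemma ph_deriv (a t : ℝ) : HasDerivAt (ph a) (sg a t) t :=
  ((sg_contDiff a).continuous.integral_hasStrictDerivAt 0 t).hasDerivAt

lemma ph_contDiff (a : ℝ) : ContDiff ℝ ∞ (ph a) := by
  rw [contDiff_infty_iff_deriv]
  refine ⟨fun t => (ph_deriv a t).differentiableAt, ?_⟩
  have : deriv (ph a) = sg a := funext fun t => (ph_deriv a t).deriv
  rw [this]
  exact sg_contDiff a

lemma ph_lip (a s t : ℝ) : |ph a s - ph a t| ≤ |s - t| := by
  have h : LipschitzWith 1 (ph a) := by
    refine lipschitzWith_of_nnnorm_deriv_le (fun t => (ph_deriv a t).differentiableAt) fun t => ?_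
    rw [(ph_deriv a t).deriv]
    have h1 : ‖sg a t‖ ≤ 1 := by
      rw [Real.norm_eq_abs, abs_of_nonneg (sg_nonneg a t)]
      exact sg_le_one a t
    exact_mod_cast h1
  have h1 := h.dist_le_mul s t
  rw [Real.dist_eq, Real.dist_eq, NNReal.coe_one, one_mul] at h1
  exact h1

lemma ph_zero {a t : ℝ} (ha : 0 < a) (h : t ≤ a) : ph a t = 0 := by
  unfold ph
  rw [intervalIntegral.integral_congr (g := fun _ => (0:ℝ))]
  · simp
  · intro x hx
    have hx2 : x ≤ max 0 t := hx.2
    exact sg_zero ha (hx2.trans (max_le ha.le h))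

lemma ph_nonneg {a t : ℝ} (h : 0 ≤ t) : 0 ≤ ph a t :=
  intervalIntegral.integral_nonneg h fun u _ => sg_nonneg a u

lemma ph_close {a t : ℝ} (ha : 0 < a) (h : 0 ≤ t) : |ph a t - t| ≤ 2 * a := by
  have h0 : ph a 0 = 0 := ph_zero ha ha.le
  have h1 : ph a t ≤ t := by
    have := ph_lip a t 0
    rw [h0, sub_zero, sub_zero, abs_of_nonneg (ph_nonneg h), abs_of_nonneg h] at this
    exact this
  have h2 : t - 2 * a ≤ ph a t := by
    rcases le_total t (2 * a) with h3 | h3
    · linarith [ph_nonneg (a := a) h]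
    · have h4 : ph a t = ph a (2 * a) + ∫ s in (2 * a)..t, sg a s := by
        unfold ph
        rw [intervalIntegral.integral_add_adjacent_intervals]
        · exact (sg_contDiff a).continuous.intervalIntegrable _ _
        · exact (sg_contDiff a).continuous.intervalIntegrable _ _
      have h5 : ∫ s in (2 * a)..t, sg a s = t - 2 * a := by
        rw [intervalIntegral.integral_congr (g := fun _ => (1:ℝ))]
        · simp
        · intro x hx
          rw [uIcc_of_le h3] at hx
          exact sg_one ha hx.1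
      rw [h4, h5]
      have := ph_nonneg (a := a) (by linarith : (0:ℝ) ≤ 2 * a)
      linarith
  rw [abs_le]
  constructor <;> linarith

end BM

theorem stBM.{u} : ST_FIN.{u} → ST_BM.{u} := by
  intro hF Z _ _ hsep k hk H A hA f L hf ε hε
  have hA1 : (1:ℝ) < A := by exact_mod_cast hA
  obtain ⟨q, hq1, hq2, hq3⟩ := H (A - 1) (by linarith)
  have h2 : ∀ w : Z, ‖w‖ ≤ (A : ℝ) * q w := fun w => by
    have := hq2 w
    rwa [show (1 : ℝ) + (A - 1) = A by ring] at this
  have h1 : ∀ w : Z, q w ≤ 1 * ‖w‖ := fun w => by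
    rw [one_mul]
    exact hq1 w
  let i1 : NormedAddCommGroup (VQ q) := NormedAddCommGroup.ofCore (VQ_core q A h2)
  let i2 : NormedSpace ℝ (VQ q) := NormedSpace.ofCore (VQ_core q A h2)
  have hn : ∀ v : VQ q, ‖v‖ = q (v : Z) := fun v => rfl
  let e : VQ q ≃ₗ[ℝ] Z := LinearEquiv.refl ℝ Z
  have he : Continuous e := by
    refine AddMonoidHomClass.continuous_of_bound e A fun v => ?_
    exact h2 v
  have he' : Continuous e.symm := by
    refine AddMonoidHomClass.continuous_of_bound e.symm 1 fun v => ?_
    exact h1 v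
  let T : VQ q ≃L[ℝ] Z := { e with continuous_toFun := he, continuous_invFun := he' }
  have hTn : ∀ v : VQ q, ‖v‖ = q (T v) := fun v => rfl
  have hs : TopologicalSpace.SeparableSpace (VQ q) :=
    T.symm.surjective.denseRange.separableSpace T.symm.continuous
  have hNA : NormApp k (VQ q) ((1 : ℝ≥0) : ℝ) := by
    intro δ hδ
    have ha : 0 < δ / 2 := half_pos hδ
    refine ⟨fun v => BM.ph (δ / 2) ‖v‖, ?_, fun x y => ?_, fun x => ?_⟩
    · rw [contDiff_iff_contDiffAt]
      intro x
      rcases lt_or_ge ‖x‖ (δ / 2) with hx | hx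
      · have hev : (fun v : VQ q => BM.ph (δ / 2) ‖v‖) =ᶠ[𝓝 x] fun _ => (0:ℝ) := by
          filter_upwards [continuous_norm.continuousAt.eventually_lt continuousAt_const hx]
            with v hv
          exact BM.ph_zero ha hv.le
        exact contDiffAt_const.congr_of_eventuallyEq hev
      · have hx0 : T x ≠ 0 := by
          intro h
          have : x = 0 := by simpa using h
          rw [this, norm_zero] at hx
          linarith
        have h3 : ContDiffAt ℝ k q (T x) :=
          hq3.contDiffAt (isOpen_compl_singleton.mem_nhds hx0)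
        have h4 : ContDiffAt ℝ k (fun v : VQ q => q (T v)) x :=
          ContDiffAt.comp x h3 T.contDiff.contDiffAt
        have h5 : ContDiffAt ℝ k (BM.ph (δ / 2)) (q (T x)) :=
          ((BM.ph_contDiff (δ / 2)).of_le hk).contDiffAt
        exact ContDiffAt.comp x h5 h4
    · rw [NNReal.coe_one, one_mul]
      exact (BM.ph_lip _ _ _).trans (abs_norm_sub_norm_le x y)
    · have := BM.ph_close ha (norm_nonneg x)
      rwa [show 2 * (δ / 2) = δ by ring] at this
  have hfl : LipschitzWith (A * L) (fun v : VQ q => f (T v)) :=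
    LipschitzWith.of_dist_le_mul fun x y => by
      rw [dist_eq_norm x y, hTn, map_sub]
      have h3 := hf.dist_le_mul (T x) (T y)
      rw [dist_eq_norm (T x)] at h3
      have h4 := h2 (T x - T y)
      push_cast
      calc dist (f (T x)) (f (T y)) ≤ L * ‖T x - T y‖ := h3
        _ ≤ L * (A * q (T x - T y)) := by gcongr
        _ = A * L * q (T x - T y) := by ring
  obtain ⟨K, hK1, hK2, hK3⟩ := star_of_normApp hF (VQ q) k hk 1 hNA (fun v => f (T v)) (A * L)
    hfl ε hε
  refine ⟨fun v => K (T.symm v), hK1.comp T.symm.contDiff, ?_, fun x => ?_⟩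
  · refine LipschitzWith.of_dist_le_mul fun x y => ?_
    have h3 := hK2.dist_le_mul (T.symm x) (T.symm y)
    rw [dist_eq_norm (T.symm x), hTn, map_sub, T.apply_symm_apply, T.apply_symm_apply,
      one_mul] at h3
    refine h3.trans ?_
    rw [dist_eq_norm]
    have h4 := hq1 (x - y)
    gcongr
  · have h3 := hK3 (T.symm x)
    simpa using h3

end Pool.Agent.Helper8.KT
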