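import Pool.Agent.Helper93.TS.Stmts
import Pool.Agent.Helper39.DiscH

/-!
KT, module D3: from the two-scale entropy inequality to finite sets of lines
-/

set_option autoImplicit false

open MeasureTheory Set Filter Topology
open scoped ENNReal NNReal

namespace Pool.Agent.Helper93.TS

open Pool.Agent.Helper8.Kak

theorem d3_floor {s a : ℝ} (hs : 0 < s) : ⌊a / s / (1 / s)⌋ = ⌊a⌋ := by
  congr 1
  field_simp

open scoped Classical in
/-- the inequality for one configuration -/
theorem d3_disc {m : ℕ} {α c1 C : ℝ} (hα : 0 < α) (hc1 : 0 ≤ c1) (hC : 0 ≤ C)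
    (hSD : ∀ (N : ℕ) (D : Dat m N),
      α * D.eL + c1 * D.eD ≤ 2 * α * (D.eP - D.eT) + C * (D.κ + 1))
    (N : ℕ) (hN1 : 1 ≤ N)
    (L : Finset ((Fin m → ℝ) × (Fin m → ℝ))) (T : (Fin m → ℝ) × (Fin m → ℝ) → Finset ℕ)
    (hL1 : ∀ l ∈ L, ‖l.2‖ ≤ ((N * N : ℕ) : ℝ))
    (hinj : Set.InjOn (fun l : (Fin m → ℝ) × (Fin m → ℝ) => fun k => ⌊l.2 k⌋) ↑L)
    (hT : ∀ l ∈ L, T l ⊆ Finset.range (N * N)) (hne : L.Nonempty) {σ : ℝ} (hσ : 0 < σ)
    (hTσ : ∀ l ∈ L, σ ≤ (T l).card) (W : ℝ)
    (hW : ∀ l ∈ L, ((L.filter (fun l' => ∀ k, ⌊l'.2 k / (N : ℝ)⌋ = ⌊l.2 k / (N : ℝ)⌋)).card : ℝ)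
      ≤ W) {S : ℝ} (hS : ∑ i ∈ Finset.range (N * N), (((L.filter (fun l => i ∈ T l)).image
          (fun l => fun k => ⌊l.1 k + (i : ℝ) / ((N * N : ℕ) : ℝ) * l.2 k⌋)).card : ℝ) = S)
    (hS0 : 0 < S) :
    α * Real.log L.card + c1 * (Real.log L.card - Real.log W) ≤
      2 * α * Real.log (1 / σ * S) + C * (2 * Real.log N - Real.log σ + 1) := by
  have hNr : (0 : ℝ) < N := by exact_mod_cast hN1
  have hMpos : 0 < N * N := by positivity
  have hMr : (0 : ℝ) < ((N * N : ℕ) : ℝ) := by exact_mod_cast hMpos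
  set Ω := (Σ l : {l // l ∈ L}, {i // i ∈ T l.1}) with hΩ
  set p : Ω → ℝ := fun ω => 1 / ((L.card : ℝ) * (T ω.1.1).card) with hp
  have hLc : (0:ℝ) < L.card := by exact_mod_cast hne.card_pos
  have hTc : ∀ l : {l // l ∈ L}, (0:ℝ) < (T l.1).card := fun l => lt_of_lt_of_le hσ (hTσ l.1 l.2)
  have hsumT : ∀ l : {l // l ∈ L},
      ∑ _i : {i // i ∈ T l.1}, 1 / ((L.card : ℝ) * (T l.1).card) = 1 / L.card := by
    intro l
    have := hTc l
    rw [Finset.sum_const, Finset.card_univ, Fintype.card_coe, nsmul_eq_mul]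
    field_simp
  have hprob : IsProb p := by
    refine ⟨fun ω => by simp only [hp]; positivity, ?_⟩
    rw [Fintype.sum_sigma]
    rw [Finset.sum_congr rfl (fun l _ => hsumT l), Finset.sum_const, Finset.card_univ,
      Fintype.card_coe, nsmul_eq_mul]
    field_simp
  let x' : {l // l ∈ L} → Fin m → ℝ := fun l k => l.1.1 k / ((N * N : ℕ) : ℝ)
  let v' : {l // l ∈ L} → Fin m → ℝ := fun l k => l.1.2 k / ((N * N : ℕ) : ℝ)
  have hv' : ∀ l i, |v' l i| ≤ 1 := by
    intro l i
    simp only [v']
    rw [abs_div, abs_of_pos hMr, div_le_one hMr]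
    have h1 := (norm_le_pi_norm l.1.2 i).trans (hL1 l.1 l.2)
    rw [Real.norm_eq_abs] at h1
    exact h1
  have hinj' : Function.Injective (fun l => cell (fd N) (v' l)) := by
    intro l l' h
    have h1 : (fun k => ⌊l.1.2 k⌋) = (fun k => ⌊l'.1.2 k⌋) := by
      funext k
      have := congrFun h k
      simp only [cell, v', fd] at this
      rwa [d3_floor hMr, d3_floor hMr] at this
    exact Subtype.ext (hinj l.2 l'.2 h1)
  have hTb : ∀ ω : Ω, ω.2.1 < N * N := by
    intro ω
    exact Finset.mem_range.1 (hT ω.1.1 ω.1.2 ω.2.2)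
  let l' : Ω → {l // l ∈ L} := fun ω => ω.1
  let T' : Ω → Fin (N * N) := fun ω => ⟨ω.2.1, hTb ω⟩
  let D : Dat m N := ⟨{l // l ∈ L}, x', v', hN1, hv', hinj', Ω, inferInstance, p, hprob, l', T'⟩
  have hmain := hSD N D
  -- entropy of the line
  have hcl : ∀ (g : {l // l ∈ L} → Prop) [DecidablePred g], 
      (∑ ω : Ω, if g ω.1 then p ω else 0) = ((Finset.univ.filter g).card : ℝ) / L.card := by
    intro g _
    rw [Fintype.sum_sigma]
    have h1 : ∀ l : {l // l ∈ L}, (∑ i : {i // i ∈ T l.1}, if g l then p ⟨l, i⟩ else 0) =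
        if g l then 1 / (L.card : ℝ) else 0 := by
      intro l
      by_cases hg : g l
      · simp only [hg, if_true]
        exact hsumT l
      · simp only [hg, if_false]
        exact Finset.sum_const_zero
    rw [Finset.sum_congr rfl (fun l _ => h1 l), ← Finset.sum_filter, Finset.sum_const,
      nsmul_eq_mul]
    ring
  have hEl : D.eL = Real.log L.card := by
    change Ent p (Setoid.ker l') = _
    unfold Ent
    have : ∀ ω, cls p (Setoid.ker l') ω = 1 / L.card := by
      intro ω
      unfold cls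
      rw [Fintype.sum_sigma, Finset.sum_eq_single ω.1]
      · rw [← hsumT ω.1]
        refine Finset.sum_congr rfl (fun i _ => ?_)
        rw [if_pos]
        rfl
      · intro l _ hl
        refine Finset.sum_eq_zero (fun i _ => ?_)
        rw [if_neg]
        intro h
        have h' : ω.1 = l := h
        exact hl h'.symm
      · intro h
        exact absurd (Finset.mem_univ _) h
    simp only [this]
    rw [← Finset.sum_mul, hprob.2, one_mul, one_div, Real.log_inv, neg_neg]
  have hED : Real.log L.card - Real.log W ≤ D.eD := by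
    change _ ≤ Ent p (Setoid.ker (fun ω => cell (cd N) (v' (l' ω))))
    unfold Ent
    have h1 : ∀ ω, cls p (Setoid.ker (fun ω => cell (cd N) (v' (l' ω)))) ω ≤ W / L.card := by
      intro ω
      unfold cls
      have h2 : (∑ ω' : Ω, if (Setoid.ker (fun ω => cell (cd N) (v' (l' ω)))) ω ω' then p ω' else 0)
          = ∑ ω' : Ω, if (cell (cd N) (v' ω.1) = cell (cd N) (v' ω'.1)) then p ω' else 0 := by
        refine Finset.sum_congr rfl (fun ω' _ => ?_)
        by_cases h : cell (cd N) (v' ω.1) = cell (cd N) (v' ω'.1)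
        · rw [if_pos h, if_pos]
          exact h
        · rw [if_neg h, if_neg]
          exact h
      rw [h2, hcl (fun l => cell (cd N) (v' ω.1) = cell (cd N) (v' l))]
      refine div_le_div_of_nonneg_right ?_ hLc.le
      refine le_trans ?_ (hW ω.1.1 ω.1.2)
      norm_cast
      have h3 : ((Finset.univ.filter (fun l => cell (cd N) (v' ω.1) = cell (cd N) (v' l))).map
          ⟨Subtype.val, Subtype.val_injective⟩) ⊆
          (L.filter (fun l'' => ∀ k, ⌊l''.2 k / (N : ℝ)⌋ = ⌊ω.1.1.2 k / (N : ℝ)⌋)) := by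
        intro l hl
        rw [Finset.mem_map] at hl
        obtain ⟨u, hu, rfl⟩ := hl
        rw [Finset.mem_filter] at hu
        rw [Finset.mem_filter]
        refine ⟨u.2, fun k => ?_⟩
        have h4 := congrFun hu.2 k
        have h5 : ∀ a : ℝ, a / ((N * N : ℕ) : ℝ) / (1 / (N : ℝ)) = a / N := by
          intro a
          push_cast
          field_simp
        simp only [cell, v', cd, h5] at h4
        exact h4.symm
      have h4 := Finset.card_le_card h3
      rw [Finset.card_map] at h4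
      exact h4
    have hWpos : 0 < W := by
      obtain ⟨l, hl⟩ := hne
      refine lt_of_lt_of_le ?_ (hW l hl)
      rw [Nat.cast_pos, Finset.card_pos]
      exact ⟨l, Finset.mem_filter.2 ⟨hl, fun k => rfl⟩⟩
    rw [← Finset.sum_neg_distrib]
    have h5 : ∀ ω, p ω * (Real.log L.card - Real.log W) ≤
        -(p ω * Real.log (cls p (Setoid.ker (fun ω => cell (cd N) (v' (l' ω)))) ω)) := by
      intro ω
      rw [← mul_neg]
      have hpω : 0 < p ω := by
        have := hTc ω.1
        simp only [hp]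
        positivity
      refine mul_le_mul_of_nonneg_left ?_ (hprob.1 ω)
      have h6 : 0 < cls p (Setoid.ker (fun ω => cell (cd N) (v' (l' ω)))) ω := by
        unfold cls
        refine Finset.sum_pos' (fun ω' _ => ?_) ⟨ω, Finset.mem_univ _, ?_⟩
        · split_ifs
          · exact hprob.1 ω'
          · exact le_refl _
        · rw [if_pos]
          · exact hpω
          · exact Setoid.refl' _ _
      have h7 := Real.log_le_log h6 (h1 ω)
      rw [Real.log_div hWpos.ne' hLc.ne'] at h7
      linarith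
    calc Real.log L.card - Real.log W = ∑ ω, p ω * (Real.log L.card - Real.log W) := by
          rw [← Finset.sum_mul, hprob.2, one_mul]
      _ ≤ _ := Finset.sum_le_sum (fun ω _ => h5 ω)
  have hElT : Real.log L.card + Real.log σ ≤ D.eB := by
    change _ ≤ Ent p (Setoid.ker l' ⊓ Setoid.ker T')
    unfold Ent
    have : ∀ ω, cls p (Setoid.ker l' ⊓ Setoid.ker T') ω = p ω := by
      intro ω
      unfold cls
      rw [Finset.sum_eq_single ω]
      · rw [if_pos]
        exact Setoid.refl' _ _
      · intro ω' _ hω'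
        rw [if_neg]
        intro h
        rw [Setoid.inf_iff_and, Setoid.ker_def, Setoid.ker_def] at h
        apply hω'
        obtain ⟨h1, h2⟩ := h
        have h1' : ω.1 = ω'.1 := h1
        have h4 : ω.2.1 = ω'.2.1 := congrArg Fin.val h2
        obtain ⟨l1, i1⟩ := ω
        obtain ⟨l2, i2⟩ := ω'
        simp only at h1' h4
        subst h1'
        rw [Subtype.ext h4]
      · intro h
        exact absurd (Finset.mem_univ _) h
    simp only [this]
    rw [← Finset.sum_neg_distrib]
    have h5 : ∀ ω, p ω * (Real.log L.card + Real.log σ) ≤ -(p ω * Real.log (p ω)) := by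
      intro ω
      rw [← mul_neg]
      refine mul_le_mul_of_nonneg_left ?_ (hprob.1 ω)
      simp only [hp]
      rw [one_div, Real.log_inv, neg_neg, Real.log_mul hLc.ne' (hTc ω.1).ne']
      have := Real.log_le_log hσ (hTσ ω.1.1 ω.1.2)
      linarith
    calc Real.log L.card + Real.log σ = ∑ ω, p ω * (Real.log L.card + Real.log σ) := by
          rw [← Finset.sum_mul, hprob.2, one_mul]
      _ ≤ _ := Finset.sum_le_sum (fun ω _ => h5 ω)
  -- entropy of the point given the height
  have hEP : D.eP - D.eT ≤ Real.log (1 / σ * S) := by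
    change Ent p (Setoid.ker T' ⊓ Setoid.ker (fun ω => cell (fd N) (pnt x' v' (l' ω) (T' ω)))) -
      Ent p (Setoid.ker T') ≤ _
    let T2 : Ω → ℕ := fun ω => ω.2.1
    let Z : Ω → Fin m → ℤ := fun ω => cell (fd N) (pnt x' v' (l' ω) (T' ω))
    have hker : Setoid.ker T' = Setoid.ker T2 := by
      ext ω ω'
      rw [Setoid.ker_def, Setoid.ker_def]
      constructor
      · intro h
        exact congrArg Fin.val h
      · intro h
        exact Fin.ext h
    rw [hker]
    refine Pool.Agent.Helper39.ent_sub_le_log hprob _ _ ?_ (by positivity)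
    refine (Pool.Agent.Helper39.sum_ratio_le hprob T2 Z (Finset.range (N * N))
      (fun ω => hT ω.1.1 ω.1.2 ω.2.2)
      (fun i => ((L.filter (fun l => i ∈ T l)).image
        (fun l => fun k => ⌊l.1 k + (i:ℝ) / ((N * N : ℕ) : ℝ) * l.2 k⌋)))
      ?_ (1/σ) ?_).trans ?_
    · intro ω
      refine Finset.mem_image.2 ⟨ω.1.1, Finset.mem_filter.2 ⟨ω.1.2, ω.2.2⟩, ?_⟩
      funext k
      simp only [Z, cell, pnt, ht, x', v', l', T', T2, fd]
      congr 1
      field_simp
    · intro i _
      rw [Fintype.sum_sigma]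
      have h6 : ∀ l : {l // l ∈ L}, (∑ j : {i // i ∈ T l.1}, @ite ℝ (T2 ⟨l, j⟩ = i) (Classical.propDecidable _) (p ⟨l, j⟩) 0) ≤
          1 / ((L.card : ℝ) * σ) := by
        intro l
        have h7 : (∑ j : {i // i ∈ T l.1}, @ite ℝ (T2 ⟨l, j⟩ = i) (Classical.propDecidable _) (p ⟨l, j⟩) 0) ≤
            1 / ((L.card : ℝ) * (T l.1).card) := by
          by_cases hi : i ∈ T l.1
          · rw [Finset.sum_eq_single (⟨i, hi⟩ : {i // i ∈ T l.1})]
            · rw [if_pos rfl]
            · intro j _ hj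
              rw [if_neg]
              intro h
              exact hj (Subtype.ext h)
            · intro h
              exact absurd (Finset.mem_univ _) h
          · rw [Finset.sum_eq_zero]
            · positivity
            · intro j _
              rw [if_neg]
              intro h
              have h' : j.1 = i := h
              exact hi (h' ▸ j.2)
        refine h7.trans ?_
        have := hTσ l.1 l.2
        exact one_div_le_one_div_of_le (by positivity) (by gcongr)
      calc _ ≤ ∑ l : {l // l ∈ L}, 1 / ((L.card : ℝ) * σ) := Finset.sum_le_sum (fun l _ => h6 l)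
        _ = 1 / σ := by
          rw [Finset.sum_const, Finset.card_univ, Fintype.card_coe, nsmul_eq_mul]
          field_simp
    · rw [hS]
  rw [hEl] at hmain
  have hκ : D.κ ≤ 2 * Real.log N - Real.log σ := by
    change 2 * Real.log N - (D.eB - D.eL) ≤ _
    rw [hEl]
    linarith
  have h8 := mul_le_mul_of_nonneg_left hEP (by positivity : (0 : ℝ) ≤ 2 * α)
  have h9 := mul_le_mul_of_nonneg_left hED hc1
  have h10 := mul_le_mul_of_nonneg_left (add_le_add_left hκ 1) hC
  linarith

theorem st_D3 : ST_D3 := by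
  intro m α c1 hα hc1 h
  obtain ⟨C, hC, hSD⟩ := h
  intro ε hε
  have hαC : 0 < 2 * α + C + 1 := by linarith
  have hηpos : 0 < ε / (2 * (2 * α + C + 1)) := by positivity
  refine ⟨ε / (2 * (2 * α + C + 1)), hηpos, ?_⟩
  set η : ℝ := ε / (2 * (2 * α + C + 1)) with hη
  have hev : ∀ᶠ N : ℕ in atTop, C ≤ ε / 2 * Real.log (N : ℝ) := by
    have h1 : Tendsto (fun N : ℕ => ε / 2 * Real.log (N : ℝ)) atTop atTop :=
      (Real.tendsto_log_atTop.comp tendsto_natCast_atTop_atTop).const_mul_atTop (by positivity)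
    exact h1.eventually_ge_atTop _
  obtain ⟨N1, hN1⟩ := eventually_atTop.1 hev
  refine ⟨max N1 1, ?_⟩
  intro N hN L T hne hL1 hinj hT hTc W hW
  have hN1' : 1 ≤ N := (le_max_right _ _).trans hN
  have hNe := hN1 N ((le_max_left _ _).trans hN)
  have hNr : (1 : ℝ) ≤ N := by exact_mod_cast hN1'
  have hNp : (0 : ℝ) < N := by linarith
  have hMr : (0 : ℝ) < ((N * N : ℕ) : ℝ) := by push_cast; positivity
  have hlM : Real.log ((N * N : ℕ) : ℝ) = 2 * Real.log N := by
    push_cast
    rw [Real.log_mul hNp.ne' hNp.ne']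
    ring
  have hlN : 0 ≤ Real.log N := Real.log_nonneg hNr
  have hσ : (0 : ℝ) < ((N * N : ℕ) : ℝ) ^ (1 - η) := Real.rpow_pos_of_pos hMr _
  set S : ℝ := ∑ i ∈ Finset.range (N * N), (((L.filter (fun l => i ∈ T l)).image
          (fun l => fun k => ⌊l.1 k + (i : ℝ) / ((N * N : ℕ) : ℝ) * l.2 k⌋)).card : ℝ) with hS
  have hSpos : 0 < S := by
    obtain ⟨l, hl⟩ := hne
    have h1 : (0:ℝ) < (T l).card := lt_of_lt_of_le hσ (hTc l hl)
    have h2 : 0 < (T l).card := by exact_mod_cast h1
    obtain ⟨i, hi⟩ := Finset.card_pos.1 h2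
    have h5 : (0:ℝ) < (((L.filter (fun l => i ∈ T l)).image
        (fun l => fun k => ⌊l.1 k + (i:ℝ) / ((N * N : ℕ) : ℝ) * l.2 k⌋)).card : ℝ) := by
      rw [Nat.cast_pos, Finset.card_pos]
      exact ⟨_, Finset.mem_image_of_mem _ (Finset.mem_filter.2 ⟨hl, hi⟩)⟩
    rw [hS]
    exact Finset.sum_pos' (fun _ _ => Nat.cast_nonneg _) ⟨i, hT l hl hi, h5⟩
  have hmain := d3_disc hα hc1 hC hSD N hN1' L T hL1 hinj hT hne hσ hTc W hW (S := S) rfl hSpos
  clear_value S
  have hlogσ : Real.log (((N * N : ℕ) : ℝ) ^ (1 - η)) = (1 - η) * (2 * Real.log N) := by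
    rw [Real.log_rpow hMr, hlM]
  have e1 : Real.log (1 / ((N * N : ℕ) : ℝ) ^ (1 - η) * S) =
      η * (2 * Real.log N) + Real.log (1 / ((N * N : ℕ) : ℝ) * S) := by
    rw [Real.log_mul (by positivity) hSpos.ne', Real.log_mul (by positivity) hSpos.ne', one_div,
      one_div, Real.log_inv, Real.log_inv, hlogσ, hlM]
    ring
  rw [e1, hlogσ] at hmain
  rw [hlM]
  have e4 : (2 * α + C) * η ≤ ε / 2 := by
    rw [hη]
    rw [mul_div_assoc', div_le_div_iff₀ (by positivity) (by norm_num)]
    nlinarith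
  have e5 := mul_le_mul_of_nonneg_right e4 (by positivity : (0 : ℝ) ≤ 2 * Real.log N)
  nlinarith

end Pool.Agent.Helper93.TS
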